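import Pool.Agent.helper12.DD.Spec

set_option autoImplicit false

open Pool.Agent.helper49.Blk

namespace Pool.Agent.DD

theorem DDM : DDM_stmt := by
  intro α a b l
  induction l generalizing a with
  | nil => rw [dd]
  | cons c l ih =>
    rw [dd]
    split_ifs with h
    · rw [ih a, h]
      simp only [List.mem_cons]
      tauto
    · have h2 := ih c
      rw [List.mem_cons, h2, ← List.mem_cons]

end Pool.Agent.DD
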